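import Pool.Agent.F5H.StmtsN

set_option autoImplicit false

open MeasureTheory Filter Topology Metric
open scoped ENNReal

namespace Pool.Agent.F5H.BN.H25

open Pool.Agent.BTL Pool.Agent.F5S Pool.Agent.F5H Pool.Agent.Helper48_F5 Pool.Agent.F5H.BN

/-! ### volumes of balls -/

theorem vol2 (a : ℝ × ℝ) {r : ℝ} (hr : 0 ≤ r) :
    volume (closedBall a r) = ENNReal.ofReal ((2 * r) ^ 2) := by
  obtain ⟨x, y⟩ := a
  rw [← closedBall_prod_same, Measure.volume_eq_prod, Measure.prod_prod, Real.volume_closedBall,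
    Real.volume_closedBall, ← ENNReal.ofReal_mul (by positivity)]
  congr 1
  ring

theorem vol3 (a : ℝ × ℝ × ℝ) {r : ℝ} (hr : 0 ≤ r) :
    volume (closedBall a r) = ENNReal.ofReal ((2 * r) ^ 3) := by
  obtain ⟨x, y⟩ := a
  rw [← closedBall_prod_same, Measure.volume_eq_prod, Measure.prod_prod, Real.volume_closedBall,
    vol2 _ hr, ← ENNReal.ofReal_mul (by positivity)]
  congr 1
  ring

theorem vol6 (a : R6) {r : ℝ} (hr : 0 ≤ r) :
    volume (closedBall a r) = ENNReal.ofReal ((2 * r) ^ 6) := by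
  obtain ⟨x, y, z⟩ := a
  rw [← closedBall_prod_same, Measure.volume_eq_prod, Measure.prod_prod, vol2 _ hr,
    ← closedBall_prod_same, Measure.volume_eq_prod, Measure.prod_prod, vol2 _ hr, vol2 _ hr,
    ← ENNReal.ofReal_mul (by positivity), ← ENNReal.ofReal_mul (by positivity)]
  congr 1
  ring

/-! ### small facts -/

theorem abs_dr_le (x y : ℝ × ℝ) : |dr x y| ≤ 2 * ‖x‖ * ‖y‖ := by
  have h1 := abs_fst_le x
  have h2 := abs_snd_le x
  have h3 := abs_fst_le y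
  have h4 := abs_snd_le y
  have n1 := norm_nonneg x
  have a1 : |x.1 * y.2| ≤ ‖x‖ * ‖y‖ := by
    rw [abs_mul]; exact mul_le_mul h1 h4 (abs_nonneg _) n1
  have a2 : |x.2 * y.1| ≤ ‖x‖ * ‖y‖ := by
    rw [abs_mul]; exact mul_le_mul h2 h3 (abs_nonneg _) n1
  calc |dr x y| ≤ |x.1 * y.2| + |x.2 * y.1| := abs_sub _ _
    _ ≤ _ := by linarith

theorem cont_t3 (l : Fin 3) : Continuous (fun x : R6 => t3 x l) := by
  fin_cases l
  · exact continuous_fst
  · exact continuous_fst.comp continuous_snd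
  · exact continuous_snd.comp continuous_snd

theorem norm_t3_le (x : R6) (l : Fin 3) : ‖t3 x l‖ ≤ ‖x‖ := by
  fin_cases l
  · exact norm_fst_le x
  · exact (norm_fst_le x.2).trans (norm_snd_le x)
  · exact (norm_snd_le x.2).trans (norm_snd_le x)

theorem t3_sub (x y : R6) (c : ℝ) (l : Fin 3) : t3 (x - c • y) l = t3 x l - c • t3 y l := by
  fin_cases l <;> rfl

theorem cont_qf {X : Type} [TopologicalSpace X] {A : X → ℝ × ℝ × ℝ} {z : X → ℝ × ℝ}
    (hA : Continuous A) (hz : Continuous z) : Continuous (fun x => qf (A x) (z x)) := by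
  unfold qf
  fun_prop

/-! ### one section -/

theorem dr_pert {Q T κ : ℝ} (hQ : 2 ≤ Q) (hT : 20 * Q ^ 2 ≤ T) (hk1 : 3 / 4 ≤ κ) (hk2 : κ ≤ 5 / 4)
    {x y u v : ℝ × ℝ} (hx : ‖x‖ ≤ Q * T) (hy : ‖y‖ ≤ Q * T) (hu : ‖u - κ • x‖ ≤ 1)
    (hv : ‖v - κ • y‖ ≤ 1) (hd : T ^ 2 ≤ Q * |dr x y|) : T ^ 2 / (4 * Q) ≤ |dr u v| := by
  obtain ⟨a, ha⟩ : ∃ a, a = u - κ • x := ⟨_, rfl⟩
  obtain ⟨b, hb⟩ : ∃ b, b = v - κ • y := ⟨_, rfl⟩
  rw [← ha] at hu
  rw [← hb] at hv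
  have e1 : u = κ • x + a := by rw [ha]; abel
  have e2 : v = κ • y + b := by rw [hb]; abel
  have hT0 : 0 < T := by nlinarith
  have hexp : dr u v = κ ^ 2 * dr x y + κ * (dr x b + dr a y) + dr a b := by
    rw [e1, e2]
    simp only [dr, Prod.fst_add, Prod.snd_add, Prod.smul_fst, Prod.smul_snd, smul_eq_mul]
    ring
  have na := norm_nonneg a
  have nb := norm_nonneg b
  have nx := norm_nonneg x
  have ny := norm_nonneg y
  have h1 : |dr x b| ≤ 2 * (Q * T) := by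
    refine (abs_dr_le x b).trans ?_
    calc 2 * ‖x‖ * ‖b‖ ≤ 2 * ‖x‖ * 1 := mul_le_mul_of_nonneg_left hv (by positivity)
      _ ≤ _ := by linarith
  have h2 : |dr a y| ≤ 2 * (Q * T) := by
    refine (abs_dr_le a y).trans ?_
    calc 2 * ‖a‖ * ‖y‖ ≤ 2 * 1 * ‖y‖ := by
          refine mul_le_mul_of_nonneg_right ?_ ny
          linarith
      _ ≤ _ := by linarith
  have h3 : |dr a b| ≤ 2 := by
    refine (abs_dr_le a b).trans ?_
    calc 2 * ‖a‖ * ‖b‖ ≤ 2 * 1 * 1 := by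
          refine mul_le_mul (by linarith) hv nb (by norm_num)
      _ = 2 := by norm_num
  have hD : T ^ 2 / Q ≤ |dr x y| := by
    rw [div_le_iff₀ (by linarith)]
    linarith
  have hk0 : 0 ≤ κ := by linarith
  have hlow : κ ^ 2 * |dr x y| - κ * (|dr x b| + |dr a y|) - |dr a b| ≤ |dr u v| := by
    rw [hexp]
    have t1 : |κ ^ 2 * dr x y| = κ ^ 2 * |dr x y| := by
      rw [abs_mul, abs_of_nonneg (by positivity)]
    have t2 : |κ * (dr x b + dr a y)| ≤ κ * (|dr x b| + |dr a y|) := by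
      rw [abs_mul, abs_of_nonneg hk0]
      exact mul_le_mul_of_nonneg_left (abs_add_le _ _) hk0
    have t3' : |κ ^ 2 * dr x y| ≤ |κ ^ 2 * dr x y + κ * (dr x b + dr a y) + dr a b| +
        |κ * (dr x b + dr a y)| + |dr a b| := by
      have : κ ^ 2 * dr x y = (κ ^ 2 * dr x y + κ * (dr x b + dr a y) + dr a b) -
          κ * (dr x b + dr a y) - dr a b := by ring
      calc |κ ^ 2 * dr x y| = |(κ ^ 2 * dr x y + κ * (dr x b + dr a y) + dr a b) -
          κ * (dr x b + dr a y) - dr a b| := by rw [← this]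
        _ ≤ |(κ ^ 2 * dr x y + κ * (dr x b + dr a y) + dr a b) -
          κ * (dr x b + dr a y)| + |dr a b| := abs_sub _ _
        _ ≤ _ := by
          have := abs_sub (κ ^ 2 * dr x y + κ * (dr x b + dr a y) + dr a b)
            (κ * (dr x b + dr a y))
          linarith
    linarith
  have hk3 : 9 / 16 ≤ κ ^ 2 := by nlinarith
  have m1 : 9 / 16 * (T ^ 2 / Q) ≤ κ ^ 2 * |dr x y| :=
    mul_le_mul hk3 hD (by positivity) (by positivity)
  have m2 : κ * (|dr x b| + |dr a y|) ≤ 5 / 4 * (4 * (Q * T)) :=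
    mul_le_mul hk2 (by linarith) (by positivity) (by norm_num)
  have m3 : 5 * (Q * T) + 2 ≤ 5 / 16 * (T ^ 2 / Q) := by
    have hq0 : 0 < Q := by linarith
    have : T ^ 2 / Q = T * (T / Q) := by ring
    have h5 : 20 * Q ≤ T / Q := by
      rw [le_div_iff₀ hq0]; nlinarith
    have h6 : T * (20 * Q) ≤ T * (T / Q) := mul_le_mul_of_nonneg_left h5 hT0.le
    rw [this]
    have h7 : 2 ≤ 5 / 4 * (Q * T) := by nlinarith
    nlinarith
  have m4 : T ^ 2 / (4 * Q) = 1 / 4 * (T ^ 2 / Q) := by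
    field_simp
  rw [m4]
  linarith

theorem section_ball {Q T κ V : ℝ} (hQ : 2 ≤ Q) (hT : 20 * Q ^ 2 ≤ T) (hk1 : 3 / 4 ≤ κ)
    (hk2 : κ ≤ 5 / 4) (hs : 6 * (4 * Q) ^ 4 * V ^ 2 ≤ T ^ 2) {h m : R6} (hV : ‖h‖ ≤ V)
    (hR : Rg Q T h m) {m' : R6} (hm' : ∀ l, ‖t3 m' l - κ • t3 m l‖ ≤ 1) :
    closedBall (Zf T (t3 m') (t3 h)) (1 / (65 * Q ^ 2 * T ^ 2)) ⊆
      {A : ℝ × ℝ × ℝ | ∀ l, |AW A (t3 m') (t3 h) l - T ^ 2| ≤ 1} := by
  have hT0 : 0 < T := by nlinarith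
  have hV0 : 0 ≤ V := (norm_nonneg _).trans hV
  have hk0 : 0 ≤ κ := by linarith
  have hsz : ∀ l, ‖t3 m' l‖ ≤ 2 * (Q * T) := by
    intro l
    have e : t3 m' l = κ • t3 m l + (t3 m' l - κ • t3 m l) := by abel
    have h1 : ‖t3 m' l‖ ≤ ‖κ • t3 m l‖ + ‖t3 m' l - κ • t3 m l‖ := by
      calc ‖t3 m' l‖ = ‖κ • t3 m l + (t3 m' l - κ • t3 m l)‖ := by rw [← e]
        _ ≤ _ := norm_add_le _ _
    have h2 : ‖κ • t3 m l‖ ≤ 5 / 4 * (Q * T) := by
      rw [norm_smul, Real.norm_eq_abs, abs_of_nonneg hk0]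
      exact mul_le_mul hk2 (hR.hm l) (norm_nonneg _) (by norm_num)
    have h3 := hm' l
    have h4 : 2 ≤ Q * T := by nlinarith
    linarith
  have hreg : Reg (4 * Q) T V (t3 m') (t3 h) := by
    refine ⟨fun l => (hsz l).trans ?_, ?_, fun l => (norm_t3_le h l).trans hV⟩
    · have : 0 ≤ Q * T := by positivity
      nlinarith
    · intro i j hij
      exact dr_pert hQ hT hk1 hk2 (hR.hm i) (hR.hm j) (hm' i) (hm' j) (hR.hd i j hij)
  have ho := ok_of_reg (by linarith) hT0 hs hreg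
  intro A hA l
  have hA' : ‖A - Zf T (t3 m') (t3 h)‖ ≤ 1 / (65 * Q ^ 2 * T ^ 2) := by
    rw [← dist_eq_norm]; exact hA
  have hz : AW (Zf T (t3 m') (t3 h)) (t3 m') (t3 h) l = T ^ 2 := AW_sol ho _ l
  have e1 : AW A (t3 m') (t3 h) l - T ^ 2 =
      AW (A - Zf T (t3 m') (t3 h)) (t3 m') (t3 h) l := by
    rw [AW_sub, hz]
  rw [e1]
  obtain ⟨E, hE⟩ : ∃ E, E = A - Zf T (t3 m') (t3 h) := ⟨_, rfl⟩
  rw [← hE] at hA' ⊢
  have b1 := blb (le_refl ‖E‖) (hsz l) (hsz l)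
  have b2 := blb (le_refl ‖E‖) ((norm_t3_le h l).trans hV) ((norm_t3_le h l).trans hV)
  rw [bl_self] at b1 b2
  have hVT : V ^ 2 ≤ Q ^ 2 * T ^ 2 := by
    have h1 : (1 : ℝ) ≤ 6 * (4 * Q) ^ 4 := by
      have : (1 : ℝ) ≤ (4 * Q) ^ 4 := one_le_pow₀ (by linarith)
      linarith
    have h2 : V ^ 2 ≤ T ^ 2 := by nlinarith [sq_nonneg V]
    have h3 : (1 : ℝ) ≤ Q ^ 2 := one_le_pow₀ (by linarith)
    nlinarith [sq_nonneg T]
  have hE0 := norm_nonneg E
  have key : |AW E (t3 m') (t3 h) l| ≤ ‖E‖ * (17 * (Q ^ 2 * T ^ 2)) := by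
    unfold AW
    have h1 : |qf E (t3 m' l) + qf E (t3 h l) / 4| ≤
        |qf E (t3 m' l)| + |qf E (t3 h l)| / 4 := by
      refine (abs_add_le _ _).trans ?_
      rw [abs_div, abs_of_pos (by norm_num : (0 : ℝ) < 4)]
    refine h1.trans ?_
    have h2 : ‖E‖ * V ^ 2 ≤ ‖E‖ * (Q ^ 2 * T ^ 2) := mul_le_mul_of_nonneg_left hVT hE0
    nlinarith
  refine key.trans ?_
  have hpos : 0 < 65 * Q ^ 2 * T ^ 2 := by positivity
  calc ‖E‖ * (17 * (Q ^ 2 * T ^ 2)) ≤ 1 / (65 * Q ^ 2 * T ^ 2) * (17 * (Q ^ 2 * T ^ 2)) :=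
        mul_le_mul_of_nonneg_right hA' (by positivity)
    _ = 17 / 65 := by field_simp
    _ ≤ 1 := by norm_num

theorem vol : VOLStmt := by
  refine ⟨24, ?_⟩
  intro T Q hQ hQT h m k hh hR hk
  have hQ0 : 0 < Q := by linarith
  have hT0 : 0 ≤ T := by
    have := (norm_nonneg _).trans (hR.hm 0)
    by_contra hneg
    push Not at hneg
    nlinarith
  have hQ24 : (1 : ℝ) < Q ^ 24 := one_lt_pow₀ (by linarith) (by norm_num)
  have hT1 : 1 ≤ T := by
    by_contra hlt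
    push Not at hlt
    have : T ^ (1 / 100000 : ℝ) ≤ 1 := Real.rpow_le_one hT0 hlt.le (by norm_num)
    linarith
  have hpow : ∀ a : ℝ, 1 / 100000 ≤ a → Q ^ 24 ≤ T ^ a := fun a ha =>
    hQT.trans (Real.rpow_le_rpow_of_exponent_le hT1 ha)
  have hTpos : 0 < T := by linarith
  have hTQ : Q ^ 24 ≤ T := by
    have := hpow 1 (by norm_num)
    rwa [Real.rpow_one] at this
  have hQ4 : (16 : ℝ) ≤ Q ^ 4 := by
    have : (2 : ℝ) ^ 4 ≤ Q ^ 4 := pow_le_pow_left₀ (by norm_num) hQ 4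
    linarith [this]
  have hT20 : 20 * Q ^ 2 ≤ T := by
    have h1 : (2 : ℝ) ^ 22 ≤ Q ^ 22 := pow_le_pow_left₀ (by norm_num) hQ 22
    have h2 : Q ^ 24 = Q ^ 22 * Q ^ 2 := by ring
    have h3 : 20 * Q ^ 2 ≤ Q ^ 22 * Q ^ 2 := by
      refine mul_le_mul_of_nonneg_right ?_ (by positivity)
      norm_num at h1
      linarith
    linarith
  -- the factor
  obtain ⟨κ, hκ⟩ : ∃ κ, κ = 1 + k / T := ⟨_, rfl⟩
  rw [← hκ]
  have hkT : |k / T| ≤ 1 / 4 := by
    rw [abs_div, abs_of_pos hTpos, div_le_iff₀ hTpos]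
    have h1 : (4 : ℝ) ≤ T ^ (13 / 25 : ℝ) := by
      have h2 := hpow (13 / 25) (by norm_num)
      have h3 : (2 : ℝ) ^ 24 ≤ Q ^ 24 := pow_le_pow_left₀ (by norm_num) hQ 24
      norm_num at h3
      linarith
    have h4 : T ^ (12 / 25 : ℝ) * T ^ (13 / 25 : ℝ) = T := by
      rw [← Real.rpow_add hTpos]
      norm_num
    have h5 : 0 ≤ T ^ (12 / 25 : ℝ) := Real.rpow_nonneg hT0 _
    nlinarith
  rw [abs_le] at hkT
  have hk1 : 3 / 4 ≤ κ := by rw [hκ]; linarith [hkT.1]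
  have hk2 : κ ≤ 5 / 4 := by rw [hκ]; linarith [hkT.2]
  -- the size of `h`
  have hs : 6 * (4 * Q) ^ 4 * (Q * Lx T) ^ 2 ≤ T ^ 2 := by
    have h1 : (Lx T) ^ 2 = T ^ (277 / 250 : ℝ) := by
      unfold Lx
      rw [← Real.rpow_natCast, ← Real.rpow_mul hT0]
      norm_num
    have h2 : T ^ 2 = T ^ (223 / 250 : ℝ) * T ^ (277 / 250 : ℝ) := by
      rw [← Real.rpow_add hTpos, ← Real.rpow_natCast]
      norm_num
    have h3 := hpow (223 / 250) (by norm_num)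
    have h4 : 6 * (4 * Q) ^ 4 * Q ^ 2 ≤ Q ^ 24 := by
      have h5 : (2 : ℝ) ^ 18 ≤ Q ^ 18 := pow_le_pow_left₀ (by norm_num) hQ 18
      have h6 : Q ^ 24 = Q ^ 18 * Q ^ 6 := by ring
      have h7 : 6 * (4 * Q) ^ 4 * Q ^ 2 = 1536 * Q ^ 6 := by ring
      rw [h6, h7]
      refine mul_le_mul_of_nonneg_right ?_ (by positivity)
      norm_num at h5
      linarith
    calc 6 * (4 * Q) ^ 4 * (Q * Lx T) ^ 2 = 6 * (4 * Q) ^ 4 * Q ^ 2 * (Lx T) ^ 2 := by ring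
      _ ≤ T ^ (223 / 250 : ℝ) * (Lx T) ^ 2 :=
        mul_le_mul_of_nonneg_right (h4.trans h3) (sq_nonneg _)
      _ = T ^ 2 := by rw [h1, ← h2]
  obtain ⟨r, hr⟩ : ∃ r : ℝ, r = 1 / (65 * Q ^ 2 * T ^ 2) := ⟨_, rfl⟩
  have hr0 : 0 < r := by rw [hr]; positivity
  obtain ⟨S, hS⟩ : ∃ S : Set ((ℝ × ℝ × ℝ) × R6), S = {z |
        (∀ l, ‖t3 z.2 l - κ • t3 m l‖ ≤ 1) ∧
        (∀ l, |AW z.1 (t3 z.2) (t3 h) l - T ^ 2| ≤ 1)} := ⟨_, rfl⟩
  rw [← hS]
  have hclosed : IsClosed S := by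
    rw [hS]
    simp only [Set.ofPred_and, Set.ofPred_forall]
    refine (isClosed_iInter fun l => ?_).inter (isClosed_iInter fun l => ?_)
    · refine isClosed_le ?_ continuous_const
      exact (((cont_t3 l).comp continuous_snd).sub continuous_const).norm
    · refine isClosed_le ?_ continuous_const
      refine Continuous.abs ?_
      refine Continuous.sub ?_ continuous_const
      unfold AW
      refine (cont_qf continuous_fst ((cont_t3 l).comp continuous_snd)).add ?_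
      exact (cont_qf continuous_fst continuous_const).div_const _
  rw [Measure.volume_eq_prod, Measure.prod_apply_symm hclosed.measurableSet]
  have hB : ∀ m' ∈ closedBall (κ • m) 1,
      ENNReal.ofReal ((2 * r) ^ 3) ≤ volume ((fun A => (A, m')) ⁻¹' S) := by
    intro m' hm'
    rw [← vol3 (Zf T (t3 m') (t3 h)) hr0.le]
    refine measure_mono ?_
    have hm1 : ∀ l, ‖t3 m' l - κ • t3 m l‖ ≤ 1 := by
      intro l
      rw [← t3_sub]
      refine (norm_t3_le _ l).trans ?_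
      rw [← dist_eq_norm]
      exact hm'
    have hsub := section_ball hQ hT20 hk1 hk2 hs hh hR hm1
    rw [← hr] at hsub
    intro A hA
    show (A, m') ∈ S
    rw [hS]
    exact ⟨hm1, hsub hA⟩
  calc ENNReal.ofReal (1 / (Q ^ 24 * T ^ 6))
      ≤ ENNReal.ofReal ((2 * r) ^ 3) * volume (closedBall (κ • m) 1) := by
        rw [vol6 _ (by norm_num : (0 : ℝ) ≤ 1), ← ENNReal.ofReal_mul (by positivity)]
        refine ENNReal.ofReal_le_ofReal ?_
        have h1 : (2 : ℝ) ^ 18 ≤ Q ^ 18 := pow_le_pow_left₀ (by norm_num) hQ 18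
        norm_num at h1
        rw [hr]
        have e1 : (2 * (1 / (65 * Q ^ 2 * T ^ 2))) ^ 3 * (2 * 1) ^ 6 =
            512 / 274625 / (Q ^ 6 * T ^ 6) := by
          field_simp
          ring
        rw [e1, div_le_div_iff₀ (by positivity) (by positivity)]
        have h2 : 1 ≤ 512 / 274625 * Q ^ 18 := by linarith
        have h3 : 0 ≤ Q ^ 6 * T ^ 6 := by positivity
        calc 1 * (Q ^ 6 * T ^ 6) ≤ 512 / 274625 * Q ^ 18 * (Q ^ 6 * T ^ 6) :=
              mul_le_mul_of_nonneg_right h2 h3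
          _ = 512 / 274625 * (Q ^ 24 * T ^ 6) := by ring
    _ = ∫⁻ m' in closedBall (κ • m) 1, ENNReal.ofReal ((2 * r) ^ 3) := by
        rw [setLIntegral_const]
    _ ≤ ∫⁻ m' in closedBall (κ • m) 1, volume ((fun A => (A, m')) ⁻¹' S) :=
        setLIntegral_mono' measurableSet_closedBall hB
    _ ≤ ∫⁻ m', volume ((fun A => (A, m')) ⁻¹' S) := setLIntegral_le_lintegral _ _

end Pool.Agent.F5H.BN.H25
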