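import Pool.Agent.F5H.StmtsA
import Pool.Agent.F5S.Stmts

/-!
Row A_SML of squad F5H: crude bound for small `T`.
-/

set_option autoImplicit false

open MeasureTheory Filter Topology

namespace Pool.Agent.F5H.H25

open Pool.Agent.BTL Pool.Agent.F5S

theorem crd {T a c : ℝ} (hT : 0 ≤ T) (h1 : (a - c) ^ 2 ≤ 2 * T ^ 2) (h2 : c ^ 2 ≤ (2 * T) ^ 2) :
    |a| ≤ 4 * T := by
  have h3 : |a - c| ≤ 2 * T := by
    apply abs_le_of_sq_le_sq
    · nlinarith [sq_nonneg T]
    · linarith
  have h4 : |c| ≤ 2 * T := by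
    apply abs_le_of_sq_le_sq
    · exact h2
    · linarith
  calc |a| = |(a - c) + c| := by rw [sub_add_cancel]
    _ ≤ |a - c| + |c| := abs_add_le _ _
    _ ≤ 4 * T := by linarith

theorem crd2 {T L : ℝ} (hT : 0 ≤ T) (hL : 0 ≤ L) (hLT : L ≤ T) {x c : ℝ × ℝ}
    (h1 : nr (x - c) ≤ 2 * L ^ 2) (h2 : nr c ≤ (2 * T) ^ 2) : ‖x‖ ≤ 4 * T := by
  unfold nr at h1 h2
  have hL2 : L ^ 2 ≤ T ^ 2 := pow_le_pow_left₀ hL hLT 2
  rw [norm_prod_le_iff, Real.norm_eq_abs, Real.norm_eq_abs]
  simp only [Prod.fst_sub, Prod.snd_sub] at h1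
  constructor
  · exact crd hT (by nlinarith [sq_nonneg (x.2 - c.2)]) (by nlinarith [sq_nonneg c.2])
  · exact crd hT (by nlinarith [sq_nonneg (x.1 - c.1)]) (by nlinarith [sq_nonneg c.1])

theorem sml (hKK : KKFStmt) (hWB : WBFStmt) : SMLStmt := by
  intro e he T0 hT0
  obtain ⟨hkk, -, -, -⟩ := hKK e he
  refine ⟨e * (((ball (4 * T0)).card : ℝ)) ^ 3 +
    e * (volume (Metric.closedBall (0 : R6) (4 * T0))).toReal + 1, ?_, ?_⟩
  · have h1 : 0 ≤ e * (((ball (4 * T0)).card : ℝ)) ^ 3 := by positivity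
    have h2 : 0 ≤ e * (volume (Metric.closedBall (0 : R6) (4 * T0))).toReal :=
      mul_nonneg he.le ENNReal.toReal_nonneg
    linarith
  intro T hT hTT W hWm hW hWs p A
  have hT' : 0 < T := by linarith
  have hL : 0 < Lx T := Real.rpow_pos_of_pos hT' _
  have hL2 : Lx T ≤ T := by
    unfold Lx
    calc T ^ (277 / 500 : ℝ) ≤ T ^ (1 : ℝ) :=
          Real.rpow_le_rpow_of_exponent_le hT (by norm_num)
      _ = T := Real.rpow_one T
  obtain ⟨-, hWb, -, hWbs⟩ := hWB (Lx T) W hL hWm hW
  have hterm : ∀ (x : R6) (y : ℝ × ℝ), Wb (Lx T) W x * kk e y ≤ e := fun x y =>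
    (mul_le_mul (hWb x).2 (hkk y).2 (hkk y).1 zero_le_one).trans (one_mul e).le
  have hSW0 : 0 ≤ SW T (Lx T) e W p A :=
    Finset.sum_nonneg fun t _ => mul_nonneg (hWb _).1 (hkk _).1
  have hSW1 : SW T (Lx T) e W p A ≤ e * (((ball (4 * T0)).card : ℝ)) ^ 3 := by
    unfold SW
    calc ∑ t ∈ ball (4 * T) ×ˢ (ball (4 * T) ×ˢ ball (4 * T)),
          Wb (Lx T) W (r3 t) * kk e (dif A t - p)
        ≤ ∑ t ∈ ball (4 * T) ×ˢ (ball (4 * T) ×ˢ ball (4 * T)), e :=
          Finset.sum_le_sum fun t _ => hterm _ _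
      _ = e * (((ball (4 * T)).card : ℝ)) ^ 3 := by
          rw [Finset.sum_const, Finset.card_product, Finset.card_product, nsmul_eq_mul]
          push_cast
          ring
      _ ≤ e * (((ball (4 * T0)).card : ℝ)) ^ 3 := by
          have hb : ((ball (4 * T)).card : ℝ) ≤ ((ball (4 * T0)).card : ℝ) := by
            exact_mod_cast Finset.card_le_card (ball_mono (by linarith) (by linarith))
          exact mul_le_mul_of_nonneg_left (pow_le_pow_left₀ (by positivity) hb 3) he.le
  have hIW0 : 0 ≤ IW (Lx T) e W p A :=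
    integral_nonneg fun x => mul_nonneg (hWb _).1 (hkk _).1
  have hIW1 : IW (Lx T) e W p A ≤
      e * (volume (Metric.closedBall (0 : R6) (4 * T0))).toReal := by
    unfold IW
    have hfin : volume (Metric.closedBall (0 : R6) (4 * T0)) < ⊤ :=
      measure_closedBall_lt_top
    calc ∫ x : R6, Wb (Lx T) W x * kk e (difr A x - p)
        ≤ ∫ x : R6, (Metric.closedBall (0 : R6) (4 * T0)).indicator (fun _ => e) x := by
          refine integral_mono_of_nonneg ?_ ?_ ?_
          · exact Filter.Eventually.of_forall fun x => mul_nonneg (hWb _).1 (hkk _).1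
          · rw [integrable_indicator_iff Metric.isClosed_closedBall.measurableSet]
            exact integrableOn_const hfin.ne
          · refine Filter.Eventually.of_forall fun x => ?_
            show Wb (Lx T) W x * kk e (difr A x - p) ≤
              (Metric.closedBall (0 : R6) (4 * T0)).indicator (fun _ => e) x
            by_cases hx : Wb (Lx T) W x = 0
            · rw [hx, zero_mul]
              exact Set.indicator_nonneg (fun _ _ => he.le) x
            · obtain ⟨c, hc, hn⟩ := hWbs x hx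
              have hc2 := hWs c hc
              have hxm : x ∈ Metric.closedBall (0 : R6) (4 * T0) := by
                rw [mem_closedBall_zero_iff]
                have h4 : 4 * T ≤ 4 * T0 := by linarith
                refine le_trans ?_ h4
                exact norm_prod_le_iff.2 ⟨crd2 hT'.le hL.le hL2 hn.1 hc2.1,
                  norm_prod_le_iff.2 ⟨crd2 hT'.le hL.le hL2 hn.2.1 hc2.2.1,
                  crd2 hT'.le hL.le hL2 hn.2.2 hc2.2.2⟩⟩
              rw [Set.indicator_of_mem hxm]
              exact hterm _ _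
      _ = e * (volume (Metric.closedBall (0 : R6) (4 * T0))).toReal := by
          rw [integral_indicator Metric.isClosed_closedBall.measurableSet, setIntegral_const,
            smul_eq_mul, mul_comm]
          rfl
  rw [abs_le]
  constructor
  · have h1 : 0 ≤ e * (((ball (4 * T0)).card : ℝ)) ^ 3 := by positivity
    linarith
  · have h2 : 0 ≤ e * (volume (Metric.closedBall (0 : R6) (4 * T0))).toReal :=
      mul_nonneg he.le ENNReal.toReal_nonneg
    linarith

end Pool.Agent.F5H.H25
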